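import Mathlib

set_option autoImplicit false

/-!
Rational series with natural coefficients in commuting variables: uniqueness of the star,
semilinear supports, and elementary identities.
-/

namespace Pool.Agent.V11232.CS

open MvPowerSeries Finset
open scoped Pointwise

/-- The star `∑ k, S ^ k` of a series with zero constant term (the coefficient of a monomial of
degree `d` only involves the powers with exponent at most `d`). -/
noncomputable def starS {σ : Type} (S : MvPowerSeries σ ℕ) : MvPowerSeries σ ℕ :=
  fun m => ∑ k ∈ Finset.range (m.degree + 1), coeff m (S ^ k)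

/-- Rational series: the smallest family containing the series of finite support and closed under
sum, product, and star of series with zero constant term. -/
inductive IsRational {σ : Type} : MvPowerSeries σ ℕ → Prop
  | finite (S : MvPowerSeries σ ℕ) : {m | coeff m S ≠ 0}.Finite → IsRational S
  | add {S T : MvPowerSeries σ ℕ} : IsRational S → IsRational T → IsRational (S + T)
  | mul {S T : MvPowerSeries σ ℕ} : IsRational S → IsRational T → IsRational (S * T)
  | star {S : MvPowerSeries σ ℕ} : IsRational S → coeff 0 S = 0 → IsRational (starS S)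

variable {σ : Type}

theorem coeff_starS (S : MvPowerSeries σ ℕ) (m : σ →₀ ℕ) :
    coeff m (starS S) = ∑ k ∈ Finset.range (m.degree + 1), coeff m (S ^ k) := rfl

theorem coeff_pow_eq_zero {S : MvPowerSeries σ ℕ} (h : coeff 0 S = 0) {m : σ →₀ ℕ} {k : ℕ}
    (hk : m.degree < k) : coeff m (S ^ k) = 0 := by
  apply coeff_of_lt_order
  have h' : S.constantCoeff = 0 := h
  have := le_order_pow_of_constantCoeff_eq_zero (f := S) k h'
  exact lt_of_lt_of_le (by exact_mod_cast hk) this

theorem coeff_starS_ge {S : MvPowerSeries σ ℕ} (h : coeff 0 S = 0) (m : σ →₀ ℕ) {N : ℕ}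
    (hN : m.degree < N) : coeff m (starS S) = ∑ k ∈ Finset.range N, coeff m (S ^ k) := by
  rw [coeff_starS]
  refine Finset.sum_subset (fun x hx => ?_) (fun x _ hx => ?_)
  · simp only [Finset.mem_range] at hx ⊢
    omega
  · apply coeff_pow_eq_zero h
    simp only [Finset.mem_range] at hx
    omega

theorem degree_lt_of_antidiagonal {m p q : σ →₀ ℕ} [DecidableEq σ] (h : (p, q) ∈ antidiagonal m)
    (hp : p ≠ 0) : q.degree < m.degree := by
  rw [Finset.HasAntidiagonal.mem_antidiagonal] at h
  simp only at h
  rw [← h, map_add]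
  have : p.degree ≠ 0 := fun h0 => hp ((Finsupp.degree_eq_zero_iff p).mp h0)
  omega

theorem starS_eq {S : MvPowerSeries σ ℕ} (h : coeff 0 S = 0) :
    starS S = 1 + S * starS S := by
  classical
  ext m
  rw [map_add, coeff_starS, Finset.sum_range_succ', pow_zero, add_comm]
  congr 1
  rw [coeff_mul]
  have h1 : ∀ p ∈ antidiagonal m, coeff p.1 S * coeff p.2 (starS S) =
      ∑ k ∈ Finset.range m.degree, coeff p.1 S * coeff p.2 (S ^ k) := by
    rintro ⟨p, q⟩ hpq
    by_cases hp : p = 0
    · subst hp
      simp [h]
    · rw [coeff_starS_ge h q (degree_lt_of_antidiagonal hpq hp), Finset.mul_sum]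
  rw [Finset.sum_congr rfl h1, Finset.sum_comm]
  refine Finset.sum_congr rfl fun k _ => ?_
  rw [pow_succ', coeff_mul]

/-- Uniqueness of the solution of `U = A U + B` when `A` has no constant term. -/
theorem unique {A B U V : MvPowerSeries σ ℕ} (h : coeff 0 A = 0) (hU : U = A * U + B)
    (hV : V = A * V + B) : U = V := by
  classical
  have key : ∀ (n : ℕ) (m : σ →₀ ℕ), m.degree < n → coeff m U = coeff m V := by
    intro n
    induction n with
    | zero => intro m hm; omega
    | succ n ih =>
      intro m hm
      rw [hU, hV, map_add, map_add, coeff_mul, coeff_mul]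
      congr 1
      refine Finset.sum_congr rfl ?_
      rintro ⟨p, q⟩ hpq
      by_cases hp : p = 0
      · subst hp
        simp [h]
      · have := degree_lt_of_antidiagonal hpq hp
        rw [ih q (by omega)]
  ext m
  exact key _ m (Nat.lt_succ_self _)

theorem eq_starS_mul {A B U : MvPowerSeries σ ℕ} (h : coeff 0 A = 0) (hU : U = A * U + B) :
    U = starS A * B := by
  refine unique h hU ?_
  calc starS A * B = (1 + A * starS A) * B := by rw [← starS_eq h]
    _ = A * (starS A * B) + B := by ring

theorem eq_starS {A U : MvPowerSeries σ ℕ} (h : coeff 0 A = 0) (hU : U = A * U + 1) :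
    U = starS A := by
  rw [eq_starS_mul h hU, mul_one]

/-! ### Supports -/

/-- The support of a series. -/
def supp (S : MvPowerSeries σ ℕ) : Set (σ →₀ ℕ) := {m | coeff m S ≠ 0}

theorem mem_supp_mul {S T : MvPowerSeries σ ℕ} {m : σ →₀ ℕ} :
    m ∈ supp (S * T) ↔ ∃ p ∈ supp S, ∃ q ∈ supp T, p + q = m := by
  classical
  constructor
  · intro h
    change coeff m (S * T) ≠ 0 at h
    rw [coeff_mul] at h
    obtain ⟨⟨p, q⟩, hpq, h'⟩ := Finset.exists_ne_zero_of_sum_ne_zero h
    exact ⟨p, left_ne_zero_of_mul h', q, right_ne_zero_of_mul h', Finset.HasAntidiagonal.mem_antidiagonal.1 hpq⟩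
  · rintro ⟨p, hp, q, hq, rfl⟩
    change coeff (p + q) (S * T) ≠ 0
    rw [coeff_mul]
    have h1 : coeff p S * coeff q T ≤
        ∑ r ∈ antidiagonal (p + q), coeff r.1 S * coeff r.2 T :=
      Finset.single_le_sum (f := fun r : (σ →₀ ℕ) × (σ →₀ ℕ) => coeff r.1 S * coeff r.2 T)
        (fun _ _ => Nat.zero_le _) (Finset.HasAntidiagonal.mem_antidiagonal.2 (rfl : (p, q).1 + (p, q).2 = p + q))
    have h2 : 0 < coeff p S * coeff q T :=
      Nat.mul_pos (Nat.pos_of_ne_zero hp) (Nat.pos_of_ne_zero hq)
    omega

theorem supp_add (S T : MvPowerSeries σ ℕ) : supp (S + T) = supp S ∪ supp T := by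
  ext m
  change coeff m (S + T) ≠ 0 ↔ coeff m S ≠ 0 ∨ coeff m T ≠ 0
  rw [map_add]
  omega

theorem zero_mem_supp_one : (0 : σ →₀ ℕ) ∈ supp (1 : MvPowerSeries σ ℕ) := by
  change coeff 0 (1 : MvPowerSeries σ ℕ) ≠ 0
  rw [coeff_zero_one]
  exact one_ne_zero

theorem supp_star {S : MvPowerSeries σ ℕ} (h : coeff 0 S = 0) :
    supp (starS S) = (AddSubmonoid.closure (supp S) : Set (σ →₀ ℕ)) := by
  classical
  apply Set.Subset.antisymm
  · have key : ∀ (n : ℕ) (m : σ →₀ ℕ), m.degree < n → m ∈ supp (starS S) →
        m ∈ AddSubmonoid.closure (supp S) := by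
      intro n
      induction n with
      | zero => intro m hm; omega
      | succ n ih =>
        intro m hm hmem
        rw [starS_eq h, supp_add] at hmem
        rcases hmem with h1 | h1
        · have : m = 0 := by
            by_contra hne
            apply h1
            rw [coeff_one, if_neg hne]
          rw [this]
          exact AddSubmonoid.zero_mem _
        · obtain ⟨p, hp, q, hq, rfl⟩ := mem_supp_mul.1 h1
          have hp0 : p ≠ 0 := by
            rintro rfl
            exact hp h
          have : q.degree < (p + q).degree := degree_lt_of_antidiagonal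
            (Finset.HasAntidiagonal.mem_antidiagonal.2 (rfl : (p, q).1 + (p, q).2 = p + q)) hp0
          exact AddSubmonoid.add_mem _ (AddSubmonoid.subset_closure hp) (ih q (by omega) hq)
    intro m hm
    exact key _ m (Nat.lt_succ_self _) hm
  · intro m hm
    induction hm using AddSubmonoid.closure_induction_left with
    | zero =>
      rw [starS_eq h, supp_add]
      exact Or.inl zero_mem_supp_one
    | add_left x hx y _ ih =>
      rw [starS_eq h, supp_add]
      exact Or.inr (mem_supp_mul.2 ⟨x, hx, y, ih, rfl⟩)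

theorem semilinear_supp {S : MvPowerSeries σ ℕ} (hS : IsRational S) :
    IsSemilinearSet (supp S) := by
  induction hS with
  | finite S h => exact IsSemilinearSet.of_finite h
  | add _ _ ih1 ih2 =>
    rw [supp_add]
    exact ih1.union ih2
  | @mul S T _ _ ih1 ih2 =>
    have : supp (S * T) = supp S + supp T := by
      ext m
      rw [mem_supp_mul, Set.mem_add]
    rw [this]
    exact ih1.add ih2
  | star _ h ih =>
    rw [supp_star h]
    exact ih.closure

/-! ### Basic rational series -/

theorem isRational_monomial (m : σ →₀ ℕ) (a : ℕ) :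
    IsRational (monomial m a : MvPowerSeries σ ℕ) := by
  classical
  refine .finite _ ((Set.finite_singleton m).subset fun p hp => ?_)
  by_contra hne
  apply hp
  rw [coeff_monomial, if_neg (fun h => hne (by rw [h]; exact rfl))]

theorem isRational_one : IsRational (1 : MvPowerSeries σ ℕ) := isRational_monomial 0 1

theorem isRational_zero : IsRational (0 : MvPowerSeries σ ℕ) :=
  .finite _ (by simp)

theorem isRational_X (i : σ) : IsRational (X i : MvPowerSeries σ ℕ) := isRational_monomial _ _

theorem IsRational.pow {S : MvPowerSeries σ ℕ} (h : IsRational S) (k : ℕ) :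
    IsRational (S ^ k) := by
  induction k with
  | zero => rw [pow_zero]; exact isRational_one
  | succ k ih => rw [pow_succ]; exact ih.mul h

/-- `P` is a summand of `S` with a rational complement. -/
def Sub (P S : MvPowerSeries σ ℕ) : Prop := ∃ R, IsRational R ∧ P + R = S

theorem Sub.refl (P : MvPowerSeries σ ℕ) : Sub P P := ⟨0, isRational_zero, add_zero _⟩

theorem Sub.trans {P Q S : MvPowerSeries σ ℕ} (h : Sub P Q) (h' : Sub Q S) : Sub P S := by
  obtain ⟨R, hR, rfl⟩ := h
  obtain ⟨R', hR', rfl⟩ := h'
  exact ⟨R + R', hR.add hR', by rw [add_assoc]⟩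

theorem Sub.add {P Q P' Q' : MvPowerSeries σ ℕ} (h : Sub P Q) (h' : Sub P' Q') :
    Sub (P + P') (Q + Q') := by
  obtain ⟨R, hR, rfl⟩ := h
  obtain ⟨R', hR', rfl⟩ := h'
  exact ⟨R + R', hR.add hR', by ring⟩

theorem Sub.mul_left {P Q : MvPowerSeries σ ℕ} (h : Sub P Q) {T : MvPowerSeries σ ℕ}
    (hT : IsRational T) : Sub (T * P) (T * Q) := by
  obtain ⟨R, hR, rfl⟩ := h
  exact ⟨T * R, hT.mul hR, by ring⟩

theorem Sub.mul_right {P Q : MvPowerSeries σ ℕ} (h : Sub P Q) {T : MvPowerSeries σ ℕ}
    (hT : IsRational T) : Sub (P * T) (Q * T) := by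
  obtain ⟨R, hR, rfl⟩ := h
  exact ⟨R * T, hR.mul hT, by ring⟩

/-! ### One-variable series -/

open Classical in
/-- The series `∑ n, f n • (X i) ^ n`. -/
noncomputable def uni (i : σ) (f : ℕ → ℕ) : MvPowerSeries σ ℕ :=
  fun m => if ∀ j, j ≠ i → m j = 0 then f (m i) else 0

open Classical in
theorem coeff_uni (i : σ) (f : ℕ → ℕ) (m : σ →₀ ℕ) :
    coeff m (uni i f) = if ∀ j, j ≠ i → m j = 0 then f (m i) else 0 := rfl

theorem uni_add (i : σ) (f g : ℕ → ℕ) : uni i (fun n => f n + g n) = uni i f + uni i g := by
  classical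
  ext m
  rw [map_add, coeff_uni, coeff_uni, coeff_uni]
  split_ifs <;> simp

theorem X_mul_uni (i : σ) (f g : ℕ → ℕ) (h0 : g 0 = 0) (hs : ∀ n, g (n + 1) = f n) :
    X i * uni i f = uni i g := by
  classical
  ext m
  rw [coeff_uni, X, coeff_monomial_mul, one_mul]
  by_cases h1 : Finsupp.single i 1 ≤ m
  · rw [if_pos h1, coeff_uni]
    have hmi : 1 ≤ m i := by simpa using h1 i
    have e : (m - Finsupp.single i 1 : σ →₀ ℕ) i = m i - 1 := by simp
    have hc : (∀ j, j ≠ i → (m - Finsupp.single i 1 : σ →₀ ℕ) j = 0) ↔ (∀ j, j ≠ i → m j = 0) := by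
      refine forall_congr' fun j => forall_congr' fun hj => ?_
      have : (m - Finsupp.single i 1 : σ →₀ ℕ) j = m j := by
        simp [Finsupp.single_apply, Ne.symm hj]
      rw [this]
    by_cases h2 : ∀ j, j ≠ i → m j = 0
    · rw [if_pos h2, if_pos (hc.2 h2), e]
      obtain ⟨k, hk⟩ : ∃ k, m i = k + 1 := ⟨m i - 1, by omega⟩
      rw [hk, hs]
      rfl
    · rw [if_neg h2, if_neg (fun h => h2 (hc.1 h))]
  · rw [if_neg h1]
    have hmi : m i = 0 := by
      by_contra hne
      apply h1
      intro j
      by_cases hj : j = i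
      · subst hj; simp; omega
      · simp [Finsupp.single_apply, Ne.symm hj]
    rw [hmi, h0]
    simp

theorem uni_delta (i : σ) : uni i (fun n => if n = 0 then 1 else 0) = (1 : MvPowerSeries σ ℕ) := by
  classical
  ext m
  rw [coeff_uni, coeff_one]
  by_cases hm : m = 0
  · subst hm; simp
  · rw [if_neg hm]
    by_cases h : ∀ j, j ≠ i → m j = 0
    · rw [if_pos h]
      have : m i ≠ 0 := by
        intro h0
        apply hm
        ext j
        by_cases hj : j = i
        · subst hj; simpa using h0
        · simpa using h j hj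
      rw [if_neg this]
    · rw [if_neg h]

/-- `1 / (1 - X i)` -/
noncomputable def al (i : σ) : MvPowerSeries σ ℕ := uni i (fun _ => 1)

theorem al_eq (i : σ) : al i = X i * al i + 1 := by
  have h1 : X i * al i = uni i (fun n => if n = 0 then 0 else 1) :=
    X_mul_uni i _ _ (by simp) (by simp)
  rw [h1, ← uni_delta i, ← uni_add]
  unfold al
  congr 1
  ext n
  split_ifs <;> rfl

theorem uni_lin (i : σ) : uni i (fun n => n + 1) = al i * al i := by
  have h0 : coeff 0 (X i : MvPowerSeries σ ℕ) = 0 := coeff_zero_X i
  have h1 : uni i (fun n => n + 1) = X i * uni i (fun n => n + 1) + al i := by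
    rw [X_mul_uni i _ (fun n => n) rfl (fun n => rfl)]
    unfold al
    rw [← uni_add]
  refine unique h0 h1 ?_
  calc al i * al i = (X i * al i + 1) * al i := by rw [← al_eq]
    _ = X i * (al i * al i) + al i := by ring

theorem uni_sq (i : σ) : uni i (fun n => (n + 1) ^ 2) = (1 + X i) * (al i * (al i * al i)) := by
  have h0 : coeff 0 (X i : MvPowerSeries σ ℕ) = 0 := coeff_zero_X i
  have h1 : uni i (fun n => (n + 1) ^ 2) = X i * uni i (fun n => (n + 1) ^ 2) +
      (al i + X i * (al i * al i) + X i * (al i * al i)) := by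
    rw [← uni_lin, X_mul_uni i (fun n => (n + 1) ^ 2) (fun n => n ^ 2) rfl (fun n => rfl),
      X_mul_uni i (fun n => n + 1) (fun n => n) rfl (fun n => rfl)]
    unfold al
    rw [← uni_add, ← uni_add, ← uni_add]
    congr 1
    ext n
    ring
  refine unique h0 h1 ?_
  have h2 : al i * al i = X i * (al i * al i) + al i := by
    calc al i * al i = (X i * al i + 1) * al i := by rw [← al_eq]
      _ = X i * (al i * al i) + al i := by ring
  calc (1 + X i) * (al i * (al i * al i))
      = (1 + X i) * ((X i * al i + 1) * (al i * al i)) := by rw [← al_eq]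
    _ = X i * ((1 + X i) * (al i * (al i * al i))) + (al i * al i + X i * (al i * al i)) := by ring
    _ = X i * ((1 + X i) * (al i * (al i * al i))) +
        ((X i * (al i * al i) + al i) + X i * (al i * al i)) := by rw [← h2]
    _ = _ := by ring

theorem isRational_al (i : σ) : IsRational (al i) := by
  have h0 : coeff 0 (X i : MvPowerSeries σ ℕ) = 0 := coeff_zero_X i
  rw [eq_starS h0 (al_eq i)]
  exact (isRational_X i).star h0

theorem isRational_uni_sq (i : σ) : IsRational (uni i (fun n => (n + 1) ^ 2)) := by
  rw [uni_sq]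
  exact (isRational_one.add (isRational_X i)).mul
    ((isRational_al i).mul ((isRational_al i).mul (isRational_al i)))

/-- Multiplication by a series in one variable which does not occur in the other factor. -/
theorem coeff_uni_mul (i : σ) (f : ℕ → ℕ) (W : MvPowerSeries σ ℕ)
    (hW : ∀ m, coeff m W ≠ 0 → m i = 0) (m : σ →₀ ℕ) :
    coeff m (uni i f * W) = f (m i) * coeff (m.erase i) W := by
  classical
  rw [coeff_mul, Finset.sum_eq_single (Finsupp.single i (m i), m.erase i)]
  · rw [coeff_uni, if_pos]
    · simp
    · intro j hj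
      simp [Finsupp.single_apply, Ne.symm hj]
  · rintro ⟨p, q⟩ hpq hne
    rw [Finset.HasAntidiagonal.mem_antidiagonal] at hpq
    simp only at hpq ⊢
    by_contra hcon
    have hp := left_ne_zero_of_mul hcon
    have hq := hW q (right_ne_zero_of_mul hcon)
    rw [coeff_uni] at hp
    have hp' : ∀ j, j ≠ i → p j = 0 := by
      by_contra h
      rw [if_neg h] at hp
      exact hp rfl
    apply hne
    have e1 : p = Finsupp.single i (m i) := by
      ext j
      by_cases hj : j = i
      · subst hj
        rw [← hpq]
        simp [hq]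
      · rw [hp' j hj]
        simp [Finsupp.single_apply, Ne.symm hj]
    have e2 : q = m.erase i := by
      ext j
      by_cases hj : j = i
      · subst hj
        simp [hq]
      · rw [Finsupp.erase_ne hj, ← hpq]
        simp [hp' j hj]
    rw [e1, e2]
  · intro h
    exfalso
    apply h
    rw [Finset.HasAntidiagonal.mem_antidiagonal]
    ext j
    by_cases hj : j = i
    · subst hj; simp
    · simp [Finsupp.single_apply, Ne.symm hj, Finsupp.erase_ne hj]

end Pool.Agent.V11232.CS
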